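import Pool.Agent.Helper50.HT.Stmts2

/-! # Row TLF -/

set_option autoImplicit false

namespace Pool.Agent.Helper90.HT

open MeasureTheory Filter Pool.Agent.Helper95 Pool.Agent.Helper95.PW Pool.Agent.Helper95.LN
  Pool.Agent.Helper50.HT

theorem TLF (h1 : ST_TRP) (h2 : ST_TLK) (h3 : ST_APXM) (h4 : ST_LMTM) : ST_TLF := by
  intro d κ hd hd1 hκ
  obtain ⟨c, z1, hc, hz1, H1⟩ := h1 d κ hd hκ
  obtain ⟨c', z2, hc', hz2, H2⟩ := h2 c d hc hd
  refine ⟨c', max z1 z2, hc', hz1.trans (le_max_left _ _), ?_⟩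
  intro z E n M X Z φ G hD hM hz hκZ hG
  obtain ⟨-, -, hz0, hS, hN, hZ⟩ := hD
  have e1 := H1 z E n M X Z ((le_max_left _ _).trans hz) hS hN hZ hκZ hG.low
  have hzp : 0 < z := by linarith
  have e0 : 0 ≤ c * ((M : ℝ) * z ^ (7 / 3 : ℝ)) := by positivity
  refine ⟨by linarith, ?_⟩
  obtain ⟨u, hu⟩ := h3 n M X (fun j => (Z j : ℝ)) E φ G hG
  obtain ⟨l1, l2, _⟩ := h4 n M X (fun j => (Z j : ℝ)) E φ G u hG hu
  obtain ⟨hsm, _, _, _, hres⟩ := hu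
  have a1 : ∀ᶠ j in atTop, 1 / 2 ≤ PW.sq (u j) := l1.eventually_const_le (by norm_num)
  have a2 : ∀ᶠ j in atTop, PW.sq (u j) ≤ 2 := l1.eventually_le_const (by norm_num)
  have a3 : ∀ᶠ j in atTop, resM X (fun j => (Z j : ℝ)) E (u j) ≤ 1 :=
    hres.eventually_le_const (by norm_num)
  refine ge_of_tendsto l2 ?_
  filter_upwards [a1, a2, a3] with j b1 b2 b3
  exact H2 n M X (fun j => (Z j : ℝ)) z E (u j) ((le_max_right _ _).trans hz) hM hN hZ hS e1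
    (hsm j).1 (hsm j).2 b1 b2 b3

end Pool.Agent.Helper90.HT
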