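import Pool.Agent.Helper50.HT.Stmts

/-! # Row WBD -/

set_option autoImplicit false

namespace Pool.Agent.Helper90.HT

open MeasureTheory Filter Pool.Agent.Helper95 Pool.Agent.Helper95.PW Pool.Agent.Helper95.LN
  Pool.Agent.Helper50.HT

theorem nr_eq (x : R3) : nr x = ‖(WithLp.toLp 2 x : EuclideanSpace ℝ (Fin 3))‖ := by
  rw [EuclideanSpace.norm_eq]
  simp [nr, Fin.sum_univ_three]

theorem nr_add (x y : R3) : nr (x + y) ≤ nr x + nr y := by
  rw [nr_eq, nr_eq, nr_eq, WithLp.toLp_add]
  exact norm_add_le _ _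

theorem nr_neg (x : R3) : nr (-x) = nr x := by
  unfold nr
  simp

theorem nr_smul (t : ℝ) (x : R3) : nr (t • x) = |t| * nr x := by
  rw [nr_eq, nr_eq, WithLp.toLp_smul, norm_smul, Real.norm_eq_abs]

theorem nr_nonneg (x : R3) : 0 ≤ nr x := Real.sqrt_nonneg _

theorem WBD (h1 : ST_SDF) (h2 : ST_KD2) (h3 : ST_KLI) : ST_WBD := by
  obtain ⟨C, hC, hK⟩ := h3
  refine ⟨4 * C, by positivity, fun R p q D hD hp hq hR => ?_⟩
  have hρ : 0 < nr R := by linarith
  have key : ∀ w, nr (w - R) ≤ D →
      |(1 / nr (w + p) + 1 / nr (w - p) - 2 * (1 / nr w)) -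
        (1 / nr (R + p) + 1 / nr (R - p) - 2 * (1 / nr R))| ≤ 2 * (C * D ^ 3 / nr R ^ 4) := by
    intro w hw
    have hb : ∀ t : ℝ, -1 ≤ t → t ≤ 1 → ∀ v, nr (v - R) ≤ D → nr R / 2 ≤ nr (v + t • p) ∧
        nr (v + t • p) ≤ 2 * nr R := by
      intro t ht1 ht2 v hv
      have ht : |t| ≤ 1 := abs_le.2 ⟨ht1, ht2⟩
      have a1 : nr (t • p) ≤ D := by
        rw [nr_smul]
        nlinarith [nr_nonneg p, abs_nonneg t]
      have a2 : nr (v + t • p) ≤ nr R + nr (v - R) + nr (t • p) := by
        have e : v + t • p = R + (v - R) + t • p := by abel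
        calc nr (v + t • p) = nr (R + (v - R) + t • p) := by rw [← e]
          _ ≤ nr (R + (v - R)) + nr (t • p) := nr_add _ _
          _ ≤ nr R + nr (v - R) + nr (t • p) := by linarith [nr_add R (v - R)]
      have a3 : nr R ≤ nr (v + t • p) + nr (v - R) + nr (t • p) := by
        have e : R = (v + t • p) + (-(v - R)) + (-(t • p)) := by abel
        calc nr R = nr ((v + t • p) + (-(v - R)) + (-(t • p))) := by rw [← e]
          _ ≤ nr ((v + t • p) + (-(v - R))) + nr (-(t • p)) := nr_add _ _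
          _ ≤ nr (v + t • p) + nr (v - R) + nr (t • p) := by
            have := nr_add (v + t • p) (-(v - R))
            rw [nr_neg] at this
            rw [nr_neg]
            linarith
      constructor <;> linarith
    have hRR : nr (R - R) ≤ D := by
      rw [sub_self]
      have : nr (0 : R3) = 0 := by simp [nr]
      rw [this]
      exact hD.le
    have h4 := h1 (fun t => 1 / nr (w + t • p) - 1 / nr (R + t • p))
      (fun t => (-(((w 0 + t * p 0) * p 0 + (w 1 + t * p 1) * p 1 + (w 2 + t * p 2) * p 2) /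
        nr (w + t • p) ^ 3)) - (-(((R 0 + t * p 0) * p 0 + (R 1 + t * p 1) * p 1 +
        (R 2 + t * p 2) * p 2) / nr (R + t • p) ^ 3)))
      (fun t => K2 (w + t • p) p - K2 (R + t • p) p) (C * D ^ 3 / nr R ^ 4)
      (fun t ht1 ht2 => ?_) (fun t ht1 ht2 => ?_) (fun t ht1 ht2 => ?_)
    · have e : (1 / nr (w + p) + 1 / nr (w - p) - 2 * (1 / nr w)) -
          (1 / nr (R + p) + 1 / nr (R - p) - 2 * (1 / nr R)) =
          (fun t : ℝ => 1 / nr (w + t • p) - 1 / nr (R + t • p)) 1 +
          (fun t : ℝ => 1 / nr (w + t • p) - 1 / nr (R + t • p)) (-1) -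
          2 * (fun t : ℝ => 1 / nr (w + t • p) - 1 / nr (R + t • p)) 0 := by
        simp only [one_smul, neg_smul, zero_smul, add_zero, ← sub_eq_add_neg]
        ring
      rw [e]
      exact h4
    · have a1 := (hb t ht1 ht2 w hw).1
      have a2 := (hb t ht1 ht2 R hRR).1
      exact (h2 w p t (by linarith)).1.sub (h2 R p t (by linarith)).1
    · have a1 := (hb t ht1 ht2 w hw).1
      have a2 := (hb t ht1 ht2 R hRR).1
      exact (h2 w p t (by linarith)).2.sub (h2 R p t (by linarith)).2
    · obtain ⟨a1, a1'⟩ := hb t ht1 ht2 w hw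
      obtain ⟨a2, a2'⟩ := hb t ht1 ht2 R hRR
      have a3 := hK (w + t • p) (R + t • p) p (nr R) hρ a1 a1' a2 a2'
      have e : w + t • p - (R + t • p) = w - R := by abel
      rw [e] at a3
      refine a3.trans ?_
      refine div_le_div_of_nonneg_right ?_ (by positivity)
      have a4 : nr p ^ 2 ≤ D ^ 2 := by
        have := nr_nonneg p
        gcongr
      have a5 : nr p ^ 2 * nr (w - R) ≤ D ^ 2 * D :=
        mul_le_mul a4 hw (nr_nonneg _) (by positivity)
      calc C * nr p ^ 2 * nr (w - R) = C * (nr p ^ 2 * nr (w - R)) := by ring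
        _ ≤ C * (D ^ 2 * D) := mul_le_mul_of_nonneg_left a5 hC.le
        _ = C * D ^ 3 := by ring
  have k1 := key (R - q) (by
    have e : R - q - R = -q := by abel
    rw [e, nr_neg]
    exact hq)
  have k2 := key (R + q) (by
    have e : R + q - R = q := by abel
    rw [e]
    exact hq)
  have e : W2 R p q = ((1 / nr (R - q + p) + 1 / nr (R - q - p) - 2 * (1 / nr (R - q))) -
        (1 / nr (R + p) + 1 / nr (R - p) - 2 * (1 / nr R))) +
      ((1 / nr (R + q + p) + 1 / nr (R + q - p) - 2 * (1 / nr (R + q))) -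
        (1 / nr (R + p) + 1 / nr (R - p) - 2 * (1 / nr R))) := by
    have e1 : R - q + p = R + p - q := by abel
    have e2 : R - q - p = R - p - q := by abel
    have e3 : R + q + p = R + p + q := by abel
    have e4 : R + q - p = R - p + q := by abel
    rw [e1, e2, e3, e4]
    unfold W2
    ring
  rw [e]
  refine (abs_add_le _ _).trans ?_
  have e5 : 4 * C * D ^ 3 / nr R ^ 4 = 2 * (C * D ^ 3 / nr R ^ 4) + 2 * (C * D ^ 3 / nr R ^ 4) := by
    ring
  rw [e5]
  exact add_le_add k1 k2

end Pool.Agent.Helper90.HT
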